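import Pool.Agent.TH229.Kan.Sphere

/-!
# MP_aeea9f_an : disconnected random Julia sets for the complexified Kan skew product
-/

set_option autoImplicit false

namespace Pool.Agent.Results.MP_aeea9f_an.DisconnectedJulia

open Filter Topology MeasureTheory Set
open scoped OnePoint

/-- The fibre map `f_u(z) = z + α cos(2πu) z (1 - z)` on the plane. -/
noncomputable def fibre (α : ℂ) (u : ℝ) (z : ℂ) : ℂ :=
  z + α * ((Real.cos (2 * Real.pi * u) : ℝ) : ℂ) * z * (1 - z)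

/-- The fibre iterates `f_u^n` on the Riemann sphere `OnePoint ℂ`, each fibre map fixing `∞`; the
base map is `u ↦ L u` (the fibre maps are `1`-periodic in `u`, so no reduction mod `1` is needed). -/
noncomputable def orbit (L : ℕ) (α : ℂ) (u : ℝ) : ℕ → OnePoint ℂ → OnePoint ℂ
  | 0, z => z
  | n + 1, z => OnePoint.map (fibre α ((L : ℝ) ^ n * u)) (orbit L α u n z)

/-- The chordal (spherical) distance on `OnePoint ℂ`. -/
noncomputable def chord : OnePoint ℂ → OnePoint ℂ → ℝ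
  | some a, some b => 2 * ‖a - b‖ / (Real.sqrt (1 + ‖a‖ ^ 2) * Real.sqrt (1 + ‖b‖ ^ 2))
  | some a, none => 2 / Real.sqrt (1 + ‖a‖ ^ 2)
  | none, some b => 2 / Real.sqrt (1 + ‖b‖ ^ 2)
  | none, none => 0

/-- Normality of a sequence of self-maps of the sphere on `U`: every subsequence has a further
subsequence converging, uniformly on compact subsets of `U`, in the spherical metric. -/
def NormalOn (F : ℕ → OnePoint ℂ → OnePoint ℂ) (U : Set (OnePoint ℂ)) : Prop :=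
  ∀ φ : ℕ → ℕ, StrictMono φ → ∃ ψ : ℕ → ℕ, StrictMono ψ ∧ ∃ h : OnePoint ℂ → OnePoint ℂ,
    ∀ K : Set (OnePoint ℂ), K ⊆ U → IsCompact K → ∀ ε : ℝ, 0 < ε →
      ∃ N : ℕ, ∀ m ≥ N, ∀ w ∈ K, chord (F (φ (ψ m)) w) (h w) < ε

/-- The random Fatou set over `u`. -/
def fatou (L : ℕ) (α : ℂ) (u : ℝ) : Set (OnePoint ℂ) :=
  {z | ∃ U : Set (OnePoint ℂ), IsOpen U ∧ z ∈ U ∧ NormalOn (orbit L α u) U}

/-- The random Julia set over `u`. -/
def julia (L : ℕ) (α : ℂ) (u : ℝ) : Set (OnePoint ℂ) := (fatou L α u)ᶜ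

open Pool.Agent.TH229.Kan

/-! ### The chordal distance -/

lemma orbit_infty (L : ℕ) (α : ℂ) (u : ℝ) (n : ℕ) : orbit L α u n ∞ = ∞ := by
  induction n with
  | zero => rfl
  | succ n ih => rw [orbit, ih]; rfl

lemma orbit_coe (L : ℕ) (α : ℂ) (u : ℝ) (n : ℕ) (z : ℂ) :
    orbit L α u n (z : OnePoint ℂ) = ((Phi L α z n u : ℂ) : OnePoint ℂ) := by
  induction n with
  | zero => rfl
  | succ n ih =>
    rw [orbit, ih, OnePoint.map_some, Phi_succ, cc_cr, fibre, cr]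

lemma chord_coe (a b : ℂ) : chord (a : OnePoint ℂ) (b : OnePoint ℂ) = dd a b := rfl

lemma chord_coe_infty (a : ℂ) : chord (a : OnePoint ℂ) ∞ = 2 / Real.sqrt (1 + ‖a‖ ^ 2) := rfl

lemma chord_infty_infty : chord ∞ ∞ = 0 := rfl

lemma chord_infty_le {a : ℂ} {R : ℝ} (hR : 0 < R) (ha : R ≤ ‖a‖) :
    chord (a : OnePoint ℂ) ∞ ≤ 2 / R := by
  rw [chord_coe_infty]
  have h1 := norm_le_sq a
  have h2 := one_le_sq a
  gcongr
  exact ha.trans h1

lemma chord_comm (x y : OnePoint ℂ) : chord x y = chord y x := by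
  induction x using OnePoint.rec with
  | infty =>
    induction y using OnePoint.rec with
    | infty => rfl
    | coe b => rfl
  | coe a =>
    induction y using OnePoint.rec with
    | infty => rfl
    | coe b => rw [chord_coe, chord_coe, dd_comm]

lemma sqrt_lip (a b : ℂ) : Real.sqrt (1 + ‖b‖ ^ 2) ≤ ‖a - b‖ + Real.sqrt (1 + ‖a‖ ^ 2) := by
  set A := Real.sqrt (1 + ‖a‖ ^ 2) with hA
  have hA1 : 1 ≤ A := one_le_sq a
  have hA2 : A ^ 2 = 1 + ‖a‖ ^ 2 := Real.sq_sqrt (by positivity)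
  have hA3 : ‖a‖ ≤ A := norm_le_sq a
  have h1 : ‖b‖ ≤ ‖a - b‖ + ‖a‖ := by
    have := norm_sub_le a (a - b)
    rw [sub_sub_cancel] at this
    linarith
  rw [Real.sqrt_le_left (by positivity)]
  nlinarith [norm_nonneg a, norm_nonneg b, norm_nonneg (a - b)]

lemma chord_triangle (x y z : OnePoint ℂ) : chord x z ≤ chord x y + chord y z := by
  induction x using OnePoint.rec with
  | infty =>
    induction y using OnePoint.rec with
    | infty => rw [chord_infty_infty, zero_add]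
    | coe b =>
      induction z using OnePoint.rec with
      | infty =>
        rw [chord_infty_infty, chord_comm ∞, chord_coe_infty]
        positivity
      | coe c =>
        rw [chord_comm ∞, chord_comm ∞, chord_coe_infty, chord_coe_infty, chord_coe, dd]
        have hb := one_le_sq b
        have hc := one_le_sq c
        have h := sqrt_lip c b
        rw [norm_sub_rev] at h
        set B := Real.sqrt (1 + ‖b‖ ^ 2)
        set C := Real.sqrt (1 + ‖c‖ ^ 2)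
        have hB0 : 0 < B := by linarith
        have hC0 : 0 < C := by linarith
        rw [div_add_div _ _ (by positivity) (by positivity), div_le_div_iff₀ (by positivity)
          (by positivity)]
        nlinarith [mul_le_mul_of_nonneg_left h (by positivity : 0 ≤ B * C)]
  | coe a =>
    induction y using OnePoint.rec with
    | infty =>
      induction z using OnePoint.rec with
      | infty => rw [chord_infty_infty, add_zero]
      | coe c =>
        rw [chord_comm ∞, chord_coe_infty, chord_coe_infty, chord_coe, dd]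
        have ha := one_le_sq a
        have hc := one_le_sq c
        have ha2 := norm_le_sq a
        have hc2 := norm_le_sq c
        have h := norm_sub_le a c
        set A := Real.sqrt (1 + ‖a‖ ^ 2)
        set C := Real.sqrt (1 + ‖c‖ ^ 2)
        have hA0 : 0 < A := by linarith
        have hC0 : 0 < C := by linarith
        rw [div_add_div _ _ (by positivity) (by positivity), div_le_div_iff₀ (by positivity)
          (by positivity)]
        have h' : ‖a - c‖ ≤ A + C := by linarith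
        nlinarith [mul_le_mul_of_nonneg_left h' (by positivity : 0 ≤ A * C)]
    | coe b =>
      induction z using OnePoint.rec with
      | infty =>
        rw [chord_coe_infty, chord_coe_infty, chord_coe, dd]
        have ha := one_le_sq a
        have hb := one_le_sq b
        have h := sqrt_lip a b
        set A := Real.sqrt (1 + ‖a‖ ^ 2)
        set B := Real.sqrt (1 + ‖b‖ ^ 2)
        have hA0 : 0 < A := by linarith
        have hB0 : 0 < B := by linarith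
        rw [div_add_div _ _ (by positivity) (by positivity), div_le_div_iff₀ (by positivity)
          (by positivity)]
        nlinarith [mul_le_mul_of_nonneg_left h (by positivity : 0 ≤ A * B)]
      | coe c =>
        rw [chord_coe, chord_coe, chord_coe]
        exact dd_triangle a b c


lemma chord_infty_pos {a : ℂ} {R : ℝ} (hR : 0 < R) (ha : ‖a‖ ≤ R) :
    2 / (1 + R) ≤ chord (a : OnePoint ℂ) ∞ := by
  rw [chord_coe_infty]
  have h1 : Real.sqrt (1 + ‖a‖ ^ 2) ≤ 1 + R := by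
    rw [Real.sqrt_le_left (by positivity)]
    nlinarith [norm_nonneg a]
  have h2 := one_le_sq a
  exact div_le_div_of_nonneg_left (by norm_num) (by linarith) h1

/-! ### The topological criterion -/

/-- the coefficient `α cos (2πu)` -/
noncomputable def cf (α : ℂ) (u : ℝ) : ℂ := α * ((Real.cos (2 * Real.pi * u) : ℝ) : ℂ)

/-- Escape data over `u`: a disc of centre `m` and radius `ρ` not containing the critical value of
`f_u`, outside of which everything escapes under the maps over `L u`. -/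
structure Esc (L : ℕ) (α : ℂ) (u : ℝ) (m : ℂ) (ρ : ℝ) : Prop where
  pos : 0 < ρ
  ne : cf α u ≠ 0
  far : ρ < ‖(1 + cf α u) ^ 2 / (4 * cf α u) - m‖
  esc : ∀ R : ℝ, ∃ N, ∀ k ≥ N, ∀ w : ℂ, ρ ≤ ‖w - m‖ →
    R < ‖Phi L α w k (((L : ℝ) * u : ℝ) : ℂ)‖

lemma Phi_one (L : ℕ) (α z : ℂ) (u : ℝ) : Phi L α z 1 u = z + cf α u * z * (1 - z) := by
  have h := cc_cr L 0 u
  rw [Phi_succ, Phi_zero, h, cr, cf]
  simp

lemma Phi_one_crit {L : ℕ} {α z : ℂ} {u : ℝ} (hc : cf α u ≠ 0) : Phi L α z 1 u =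
    (1 + cf α u) ^ 2 / (4 * cf α u) - cf α u * (z - (1 + cf α u) / (2 * cf α u)) ^ 2 := by
  rw [Phi_one]
  field_simp
  ring

lemma Phi_zero_fix (L : ℕ) (α : ℂ) (n : ℕ) (x : ℂ) : Phi L α 0 n x = 0 := by
  induction n with
  | zero => rfl
  | succ n ih => rw [Phi_succ, ih]; ring

lemma Esc.escape {L : ℕ} {α : ℂ} {u : ℝ} {n : ℕ} {m : ℂ} {ρ : ℝ}
    (h : Esc L α ((L : ℝ) ^ n * u) m ρ) (R : ℝ) : ∃ N, ∀ k ≥ N, ∀ z : ℂ,
      ρ ≤ ‖Phi L α z (n + 1) u - m‖ → R < ‖Phi L α z k u‖ := by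
  obtain ⟨N, hN⟩ := h.esc R
  refine ⟨n + 1 + N, fun k hk z hz => ?_⟩
  obtain ⟨j, rfl⟩ := Nat.exists_eq_add_of_le (show n + 1 ≤ k by omega)
  rw [Phi_add_real]
  have e : (L : ℝ) ^ (n + 1) * u = L * ((L : ℝ) ^ n * u) := by ring
  rw [e]
  exact hN j (by omega) _ hz

/-- The set of points that never leave the discs. -/
def KK' (L : ℕ) (α : ℂ) (u R₁ : ℝ) : Set ℂ :=
  {z | ∀ n m ρ, ‖m‖ + ρ ≤ R₁ → Esc L α ((L : ℝ) ^ n * u) m ρ → ‖Phi L α z (n + 1) u - m‖ ≤ ρ}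

lemma KK'_closed (L : ℕ) (α : ℂ) (u R₁ : ℝ) : IsClosed (KK' L α u R₁) := by
  have : KK' L α u R₁ = ⋂ (n : ℕ) (m : ℂ) (ρ : ℝ) (_ : ‖m‖ + ρ ≤ R₁)
      (_ : Esc L α ((L : ℝ) ^ n * u) m ρ), {z | ‖Phi L α z (n + 1) u - m‖ ≤ ρ} := by
    ext z
    simp only [KK', Set.mem_iInter, Set.mem_ofPred_eq]
  rw [this]
  refine isClosed_iInter fun n => isClosed_iInter fun m => isClosed_iInter fun ρ =>
    isClosed_iInter fun _ => isClosed_iInter fun _ => ?_
  exact isClosed_le ((Phi_cont_z L α (n + 1) u).sub continuous_const).norm continuous_const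

/-- A point of the boundary of `KK'` along a path is in the Julia set. -/
lemma julia_of_boundary {L : ℕ} {α : ℂ} {u R₁ : ℝ} (hR₁ : 0 < R₁)
    (hrec : ∃ᶠ n : ℕ in atTop, ∃ m ρ, ‖m‖ + ρ ≤ R₁ ∧ Esc L α ((L : ℝ) ^ n * u) m ρ)
    {γ : ℝ → ℂ} (hγ : Continuous γ) {t₀ : ℝ} (h0 : γ t₀ ∈ KK' L α u R₁) {t₁ : ℝ} (ht : t₀ < t₁)
    (h1 : ∀ t, t₀ < t → t ≤ t₁ → γ t ∉ KK' L α u R₁) :
    ((γ t₀ : ℂ) : OnePoint ℂ) ∈ julia L α u := by
  rintro ⟨U, hUo, hzU, hnorm⟩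
  obtain ⟨φ, hφ, hφK⟩ := extraction_of_frequently_atTop hrec
  have hφ' : StrictMono fun k => φ k + 1 := fun a b hab => by
    have := hφ hab
    simpa using this
  obtain ⟨ψ, hψ, h, hconv⟩ := hnorm _ hφ'
  -- the bound at the good times
  have hbd : ∀ k, ‖Phi L α (γ t₀) (φ k + 1) u‖ ≤ R₁ := by
    intro k
    obtain ⟨m, ρ, hmρ, he⟩ := hφK k
    have := h0 _ m ρ hmρ he
    calc ‖Phi L α (γ t₀) (φ k + 1) u‖ = ‖(Phi L α (γ t₀) (φ k + 1) u - m) + m‖ := by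
          rw [sub_add_cancel]
      _ ≤ ρ + ‖m‖ := (norm_add_le _ _).trans (by linarith)
      _ ≤ R₁ := by linarith
  set κ := 2 / (1 + R₁) with hκ
  have hκ0 : 0 < κ := by positivity
  -- a compact piece of the path
  have hU' : IsOpen ((fun t : ℝ => ((γ t : ℂ) : OnePoint ℂ)) ⁻¹' U) :=
    hUo.preimage (OnePoint.continuous_coe.comp hγ)
  obtain ⟨r0, hr0, hr0U⟩ := Metric.isOpen_iff.1 hU' t₀ hzU
  set K : Set ℝ := Metric.closedBall t₀ (r0 / 2) with hK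
  have hKU : (fun t : ℝ => ((γ t : ℂ) : OnePoint ℂ)) '' K ⊆ U := by
    rintro _ ⟨t, ht', rfl⟩
    apply hr0U
    rw [hK, Metric.mem_closedBall] at ht'
    rw [Metric.mem_ball]
    linarith
  have hKc : IsCompact ((fun t : ℝ => ((γ t : ℂ) : OnePoint ℂ)) '' K) :=
    (isCompact_closedBall t₀ (r0 / 2)).image (OnePoint.continuous_coe.comp hγ)
  obtain ⟨N, hN⟩ := hconv _ hKU hKc (κ / 4) (by positivity)
  have hN' : ∀ m ≥ N, ∀ t ∈ K,
      chord ((Phi L α (γ t) (φ (ψ m) + 1) u : ℂ) : OnePoint ℂ) (h (γ t)) < κ / 4 := by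
    intro m hm t ht'
    have := hN m hm _ ⟨t, ht', rfl⟩
    rwa [orbit_coe] at this
  -- continuity of the path at the good time
  have hcont : ContinuousAt (fun t => Phi L α (γ t) (φ (ψ N) + 1) u) t₀ :=
    ((Phi_cont_z L α (φ (ψ N) + 1) u).comp hγ).continuousAt
  rw [Metric.continuousAt_iff] at hcont
  obtain ⟨r1, hr1, hr1c⟩ := hcont (κ / 8) (by positivity)
  obtain ⟨t, ht1, ht2, ht3, ht4⟩ : ∃ t, t₀ < t ∧ t ≤ t₁ ∧ t - t₀ < r1 ∧ t - t₀ < r0 / 2 := by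
    refine ⟨t₀ + min (t₁ - t₀) (min (r1 / 2) (r0 / 4)), ?_, ?_, ?_, ?_⟩
    · have : 0 < min (t₁ - t₀) (min (r1 / 2) (r0 / 4)) := by
        refine lt_min (by linarith) (lt_min (by linarith) (by linarith))
      linarith
    · linarith [min_le_left (t₁ - t₀) (min (r1 / 2) (r0 / 4))]
    · have := (min_le_right (t₁ - t₀) (min (r1 / 2) (r0 / 4))).trans (min_le_left _ _)
      linarith
    · have := (min_le_right (t₁ - t₀) (min (r1 / 2) (r0 / 4))).trans (min_le_right _ _)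
      linarith
  have htK : t ∈ K := by
    rw [hK, Metric.mem_closedBall, Real.dist_eq, abs_of_pos (by linarith)]
    exact ht4.le
  have hd1 : chord ((Phi L α (γ t₀) (φ (ψ N) + 1) u : ℂ) : OnePoint ℂ)
      ((Phi L α (γ t) (φ (ψ N) + 1) u : ℂ) : OnePoint ℂ) < κ / 4 := by
    have h2 := hr1c (x := t) (by rw [Real.dist_eq, abs_of_pos (by linarith)]; exact ht3)
    rw [dist_eq_norm] at h2
    have h3 := dd_le (Phi L α (γ t) (φ (ψ N) + 1) u) (Phi L α (γ t₀) (φ (ψ N) + 1) u)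
    rw [dd_comm] at h3
    rw [chord_coe]
    linarith
  -- the orbit of `γ t` escapes
  have hesc : ∃ m ≥ N, 8 / κ < ‖Phi L α (γ t) (φ (ψ m) + 1) u‖ := by
    have h2 := h1 t ht1 ht2
    simp only [KK', Set.mem_ofPred_eq, not_forall, not_le] at h2
    obtain ⟨n, m, ρ, -, he, hlt⟩ := h2
    obtain ⟨N', hN''⟩ := he.escape (8 / κ)
    have h3 : Tendsto (fun m => φ (ψ m) + 1) atTop atTop :=
      hφ'.tendsto_atTop.comp hψ.tendsto_atTop
    obtain ⟨j, hj1, hj2⟩ := ((h3.eventually_ge_atTop N').and (eventually_ge_atTop N)).exists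
    exact ⟨j, hj2, hN'' _ hj1 _ hlt.le⟩
  obtain ⟨m, hm1, hm2⟩ := hesc
  have hA := hN' N le_rfl t htK
  have hB := hN' m hm1 t htK
  have hC : chord ((Phi L α (γ t) (φ (ψ m) + 1) u : ℂ) : OnePoint ℂ) ∞ ≤ κ / 4 := by
    have h3 := chord_infty_le (by positivity : 0 < 8 / κ) hm2.le
    have h4 : 2 / (8 / κ) = κ / 4 := by field_simp; norm_num
    rwa [h4] at h3
  have hD := chord_infty_pos hR₁ (hbd (ψ N))
  have t1 := chord_triangle ((Phi L α (γ t₀) (φ (ψ N) + 1) u : ℂ) : OnePoint ℂ)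
    ((Phi L α (γ t) (φ (ψ N) + 1) u : ℂ) : OnePoint ℂ) ∞
  have t2 := chord_triangle ((Phi L α (γ t) (φ (ψ N) + 1) u : ℂ) : OnePoint ℂ) (h (γ t)) ∞
  have t3 := chord_triangle (h (γ t)) ((Phi L α (γ t) (φ (ψ m) + 1) u : ℂ) : OnePoint ℂ) ∞
  rw [chord_comm (h (γ t)) ((Phi L α (γ t) (φ (ψ m) + 1) u : ℂ) : OnePoint ℂ)] at t3
  linarith

/-- the points outside the first disc, together with `∞`, are in the Fatou set -/
lemma fatou_of_far {L : ℕ} {α : ℂ} {u : ℝ} {m : ℂ} {ρ : ℝ} (h : Esc L α u m ρ) :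
    (∞ ∈ fatou L α u) ∧ ∀ z : ℂ, ρ < ‖Phi L α z 1 u - m‖ → ((z : ℂ) : OnePoint ℂ) ∈ fatou L α u := by
  set A : Set ℂ := {z | ρ < ‖Phi L α z 1 u - m‖} with hA
  set U : Set (OnePoint ℂ) := insert ∞ ((fun z : ℂ => (z : OnePoint ℂ)) '' A) with hU
  have hc := h.ne
  have hpre : (fun z : ℂ => (z : OnePoint ℂ)) ⁻¹' U = A := by
    ext z
    simp only [hU, Set.mem_preimage, Set.mem_insert_iff, Set.mem_image, OnePoint.coe_ne_infty,
      false_or, OnePoint.coe_eq_coe, exists_eq_right]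
  have hUo : IsOpen U := by
    rw [OnePoint.isOpen_iff_of_mem (Set.mem_insert _ _)]
    rw [hpre]
    have hcl : IsClosed Aᶜ := by
      have : Aᶜ = {z | ‖Phi L α z 1 u - m‖ ≤ ρ} := by
        ext z; simp [hA]
      rw [this]
      exact isClosed_le ((Phi_cont_z L α 1 u).sub continuous_const).norm continuous_const
    refine ⟨hcl, ?_⟩
    refine Metric.isCompact_of_isClosed_isBounded hcl ?_
    rw [isBounded_iff_forall_norm_le]
    refine ⟨1 + (ρ + ‖m‖ + 2) / ‖cf α u‖ + ‖(1 : ℂ) / cf α u‖ + 1, fun z hz => ?_⟩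
    have hz' : ‖Phi L α z 1 u - m‖ ≤ ρ := by simpa [hA] using hz
    rw [Phi_one] at hz'
    by_contra hcon
    push Not at hcon
    have hc0 : 0 < ‖cf α u‖ := norm_pos_iff.2 hc
    have hz1 : 1 ≤ ‖z‖ := by
      have h1 : 0 ≤ (ρ + ‖m‖ + 2) / ‖cf α u‖ := by have := h.pos; positivity
      have h2 : 0 ≤ ‖(1 : ℂ) / cf α u‖ := norm_nonneg _
      linarith
    have e : z + cf α u * z * (1 - z) = cf α u * z * (1 / cf α u + 1 - z) := by
      field_simp
      ring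
    have h3 : ‖z + cf α u * z * (1 - z)‖ ≤ ρ + ‖m‖ := by
      calc ‖z + cf α u * z * (1 - z)‖ = ‖(z + cf α u * z * (1 - z) - m) + m‖ := by
            rw [sub_add_cancel]
        _ ≤ _ := (norm_add_le _ _).trans (by linarith)
    rw [e, norm_mul, norm_mul] at h3
    have h4 : ‖z‖ - ‖1 / cf α u + 1‖ ≤ ‖1 / cf α u + 1 - z‖ := by
      rw [norm_sub_rev]
      exact norm_sub_norm_le _ _
    have h5 : ‖1 / cf α u + 1‖ ≤ ‖(1 : ℂ) / cf α u‖ + 1 := by
      refine (norm_add_le _ _).trans ?_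
      rw [norm_one]
    have h6 : 1 + (ρ + ‖m‖ + 2) / ‖cf α u‖ ≤ ‖1 / cf α u + 1 - z‖ := by linarith
    have h7 : ‖cf α u‖ * ‖z‖ * (1 + (ρ + ‖m‖ + 2) / ‖cf α u‖) ≤ ρ + ‖m‖ :=
      (mul_le_mul_of_nonneg_left h6 (by positivity)).trans h3
    have h8 : ‖cf α u‖ * ‖z‖ * (1 + (ρ + ‖m‖ + 2) / ‖cf α u‖) =
        ‖z‖ * (‖cf α u‖ + (ρ + ‖m‖ + 2)) := by field_simp
    rw [h8] at h7
    have h9 : 1 * (ρ + ‖m‖ + 2) ≤ ‖z‖ * (‖cf α u‖ + (ρ + ‖m‖ + 2)) := by
      have := h.pos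
      exact mul_le_mul hz1 (by linarith) (by positivity) (by linarith)
    linarith
  have hnorm : NormalOn (orbit L α u) U := by
    intro φ hφ
    refine ⟨id, strictMono_id, fun _ => ∞, fun K hK _ ε hε => ?_⟩
    have h0 : Esc L α ((L : ℝ) ^ 0 * u) m ρ := by simpa using h
    obtain ⟨N, hN⟩ := h0.escape (2 / ε)
    refine ⟨N, fun j hj w hw => ?_⟩
    have hj' : N ≤ φ j := hj.trans (hφ.id_le j)
    rcases hK hw with rfl | ⟨z, hz, rfl⟩
    · simp only [id_eq]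
      rw [orbit_infty, chord_infty_infty]
      exact hε
    · simp only [id_eq]
      rw [orbit_coe]
      have h1 := hN (φ j) hj' z (by
        have : ρ < ‖Phi L α z 1 u - m‖ := hz
        simpa using this.le)
      rw [chord_coe_infty]
      have h2 := norm_le_sq (Phi L α z (φ j) u)
      rw [div_lt_iff₀ (by have := one_le_sq (Phi L α z (φ j) u); linarith)]
      rw [div_lt_iff₀ hε] at h1
      nlinarith
  refine ⟨⟨U, hUo, Set.mem_insert _ _, hnorm⟩, fun z hz => ⟨U, hUo, Or.inr ⟨z, hz, rfl⟩, hnorm⟩⟩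

/-- The topological criterion. -/
theorem disconnected_of_esc {L : ℕ} {α : ℂ} {u R₁ : ℝ} (hR₁ : 0 < R₁)
    (hgood : ∃ m ρ, ‖m‖ + ρ ≤ R₁ ∧ Esc L α u m ρ)
    (hrec : ∃ᶠ n : ℕ in atTop, ∃ m ρ, ‖m‖ + ρ ≤ R₁ ∧ Esc L α ((L : ℝ) ^ n * u) m ρ) :
    ¬ IsPreconnected (julia L α u) := by
  obtain ⟨m, ρ, hmρ, h⟩ := hgood
  have h0 : Esc L α ((L : ℝ) ^ 0 * u) m ρ := by simpa using h
  set c := cf α u with hc
  have hc0 : c ≠ 0 := h.ne
  set v := (1 + c) ^ 2 / (4 * c) with hv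
  set p := (1 + c) / (2 * c) with hp
  have hvm : v - m ≠ 0 := by
    have := h.far
    intro h1
    rw [h1, norm_zero] at this
    linarith [h.pos]
  obtain ⟨β, hβ⟩ := IsAlgClosed.exists_pow_nat_eq (c / (v - m)) (n := 2) (by norm_num)
  set s : ℂ → ℝ := fun z => (β * (z - p)).re with hs
  have hscont : Continuous s := by
    simp only [hs]; fun_prop
  have hf : ∀ z, Phi L α z 1 u = v - c * (z - p) ^ 2 := fun z => Phi_one_crit hc0
  have hline : ∀ z, s z = 0 → ρ < ‖Phi L α z 1 u - m‖ := by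
    intro z hz
    have h1 : Phi L α z 1 u - m = (v - m) * (1 - (β * (z - p)) ^ 2) := by
      rw [hf, mul_pow, hβ]
      field_simp
      ring
    have h2 : (β * (z - p)) ^ 2 = ((-(β * (z - p)).im ^ 2 : ℝ) : ℂ) := by
      have h3 : β * (z - p) = ((β * (z - p)).im : ℂ) * Complex.I := by
        apply Complex.ext
        · simp only [Complex.mul_re, Complex.ofReal_re, Complex.I_re, Complex.ofReal_im,
            Complex.I_im]
          have : (β * (z - p)).re = 0 := hz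
          simp only [Complex.mul_re] at this
          linarith
        · simp
      conv_lhs => rw [h3]
      rw [mul_pow, Complex.I_sq]
      push_cast; ring
    rw [h1, norm_mul, h2]
    have h3 : (1 : ℝ) ≤ ‖(1 : ℂ) - ((-(β * (z - p)).im ^ 2 : ℝ) : ℂ)‖ := by
      have : (1 : ℂ) - ((-(β * (z - p)).im ^ 2 : ℝ) : ℂ) = ((1 + (β * (z - p)).im ^ 2 : ℝ) : ℂ) := by
        push_cast; ring
      rw [this, Complex.norm_real, Real.norm_eq_abs, abs_of_nonneg (by positivity)]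
      nlinarith [sq_nonneg (β * (z - p)).im]
    have h4 := h.far
    nlinarith [norm_nonneg (v - m)]
  -- points with image zero
  have hzero : ∀ q, Phi L α q 1 u = 0 → ∀ n, Phi L α q (n + 1) u = 0 := by
    intro q hq n
    rw [add_comm, Phi_add_real, hq, Phi_zero_fix]
  have hKq : ∀ q, Phi L α q 1 u = 0 → q ∈ KK' L α u R₁ := by
    intro q hq n m' ρ' _ he
    by_contra hcon
    push Not at hcon
    obtain ⟨N, hN⟩ := he.escape 1
    have := hN (max N 1) (le_max_left _ _) q hcon.le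
    obtain ⟨j, hj⟩ := Nat.exists_eq_add_of_le' (le_max_right N 1)
    rw [hj, hzero q hq j, norm_zero] at this
    linarith
  have hsq : ∀ q, Phi L α q 1 u = 0 → s q ≠ 0 := by
    intro q hq h1
    have h2 := hline q h1
    have h3 := hKq q hq 0 m ρ hmρ h0
    rw [zero_add] at h3
    linarith
  have hside : ∀ q, Phi L α q 1 u = 0 → ∃ z : ℂ, ((z : ℂ) : OnePoint ℂ) ∈ julia L α u ∧
      0 < s z * s q := by
    intro q hq
    set γ : ℝ → ℂ := fun t => q + (t : ℂ) * (p - q) with hγ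
    have hγc : Continuous γ := by simp only [hγ]; fun_prop
    have hsγ : ∀ t, s (γ t) = (1 - t) * s q := by
      intro t
      simp only [hs, hγ]
      have : β * (q + (t : ℂ) * (p - q) - p) = ((1 - t : ℝ) : ℂ) * (β * (q - p)) := by
        push_cast; ring
      rw [this, Complex.re_ofReal_mul]
    set T : Set ℝ := {t | t ∈ Set.Icc (0 : ℝ) 1 ∧ γ t ∈ KK' L α u R₁} with hT
    have hTc : IsCompact T := by
      have : T = Set.Icc (0 : ℝ) 1 ∩ γ ⁻¹' (KK' L α u R₁) := rfl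
      rw [this]
      exact isCompact_Icc.inter_right ((KK'_closed L α u R₁).preimage hγc)
    have hT0 : (0 : ℝ) ∈ T := ⟨by simp, by
      have : γ 0 = q := by simp [hγ]
      rw [this]; exact hKq q hq⟩
    have hTs : sSup T ∈ T := hTc.sSup_mem ⟨0, hT0⟩
    have hγ1 : γ 1 ∉ KK' L α u R₁ := by
      intro h1
      have h2 := h1 0 m ρ hmρ h0
      have h3 : γ 1 = p := by simp [hγ]
      rw [h3, zero_add, hf, sub_self] at h2
      simp only [ne_eq, OfNat.ofNat_ne_zero, not_false_eq_true, zero_pow, mul_zero, sub_zero] at h2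
      exact absurd h.far (not_lt.2 h2)
    have hlt : sSup T < 1 := by
      refine lt_of_le_of_ne hTs.1.2 fun h1 => hγ1 ?_
      rw [← h1]; exact hTs.2
    refine ⟨γ (sSup T), julia_of_boundary hR₁ hrec hγc hTs.2 hlt ?_, ?_⟩
    · intro t ht1 ht2 ht3
      have : t ∈ T := ⟨⟨hTs.1.1.trans ht1.le, ht2⟩, ht3⟩
      exact absurd (le_csSup hTc.bddAbove this) (not_le.2 ht1)
    · rw [hsγ]
      have h1 : 0 < 1 - sSup T := by linarith
      have h2 := hsq q hq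
      have h3 : 0 < s q * s q := mul_self_pos.2 h2
      nlinarith
  have hq0 : Phi L α 0 1 u = 0 := Phi_zero_fix L α 1 u
  have hq1 : Phi L α (2 * p) 1 u = 0 := by
    have h1 := hf 0
    rw [hq0] at h1
    rw [hf]
    linear_combination -h1
  have hopp : s (2 * p) = -s 0 := by
    simp only [hs]
    have : β * (2 * p - p) = -(β * (0 - p)) := by ring
    rw [this, Complex.neg_re]
  have hFar := fatou_of_far h
  have hopen : ∀ V : Set ℂ, IsOpen V → IsOpen ((fun z : ℂ => (z : OnePoint ℂ)) '' V) :=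
    fun V hV => OnePoint.isOpenEmbedding_coe.isOpenMap V hV
  intro hpre
  have h1 := hpre _ _ (hopen {z | 0 < s z} (isOpen_lt continuous_const hscont))
    (hopen {z | s z < 0} (isOpen_lt hscont continuous_const)) ?_ ?_ ?_
  · obtain ⟨x, -, ⟨z, hz, rfl⟩, ⟨z', hz', hzz'⟩⟩ := h1
    have : z' = z := by simpa using hzz'
    subst this
    have h2 : 0 < s z' := hz
    have h3 : s z' < 0 := hz'
    linarith
  · intro x hx
    induction x using OnePoint.rec with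
    | infty => exact absurd hFar.1 hx
    | coe z =>
      have hz : s z ≠ 0 := fun h2 => hx (hFar.2 z (hline z h2))
      rcases lt_or_gt_of_ne hz with h2 | h2
      · exact Or.inr ⟨z, h2, rfl⟩
      · exact Or.inl ⟨z, h2, rfl⟩
  · rcases lt_or_gt_of_ne (hsq 0 hq0) with h2 | h2
    · obtain ⟨z, hz1, hz2⟩ := hside _ hq1
      refine ⟨_, hz1, z, ?_, rfl⟩
      rw [hopp] at hz2
      show 0 < s z
      nlinarith
    · obtain ⟨z, hz1, hz2⟩ := hside _ hq0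
      refine ⟨_, hz1, z, ?_, rfl⟩
      show 0 < s z
      exact (pos_iff_pos_of_mul_pos hz2).2 h2
  · rcases lt_or_gt_of_ne (hsq 0 hq0) with h2 | h2
    · obtain ⟨z, hz1, hz2⟩ := hside _ hq0
      refine ⟨_, hz1, z, ?_, rfl⟩
      show s z < 0
      exact (neg_iff_neg_of_mul_pos hz2).2 h2
    · obtain ⟨z, hz1, hz2⟩ := hside _ hq1
      refine ⟨_, hz1, z, ?_, rfl⟩
      rw [hopp] at hz2
      show s z < 0
      nlinarith

/-! ### Recurrence and the measure of the good set -/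

lemma recur {L : ℕ} (hL : 1 < L) {Λ : Set ℝ} (hm : MeasurableSet Λ) (hsub : Λ ⊆ Set.Ioc 0 1) :
    ∀ᵐ u : ℝ, u ∈ Λ → ∃ᶠ n : ℕ in atTop, ∃ k : ℤ, (L : ℝ) ^ n * u + k ∈ Λ := by
  set g : UnitAddCircle → ℝ := fun y => ((AddCircle.measurableEquivIoc (1 : ℝ) 0 y :
    Set.Ioc (0 : ℝ) (0 + 1)) : ℝ) with hg
  have hgm : Measurable g := measurable_subtype_coe.comp
    (AddCircle.measurableEquivIoc (1 : ℝ) 0).measurable
  have hs : MeasurableSet (g ⁻¹' Λ) := hgm hm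
  have hT := (AddCircle.ergodic_nsmul (T := 1) hL).toMeasurePreserving
  have hcons := hT.conservative
  have h1 := hcons.ae_mem_imp_frequently_image_mem hs.nullMeasurableSet
  filter_upwards [ae_real_of_circle h1] with u hu huΛ
  have h2 : (u : UnitAddCircle) ∈ g ⁻¹' Λ := by
    have h3 : g (u : UnitAddCircle) = u := by
      have hmem : u ∈ Set.Ioc (0 : ℝ) (0 + 1) := by rw [zero_add]; exact hsub huΛ
      have := AddCircle.equivIoc_coe_eq (p := (1 : ℝ)) (a := 0) hmem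
      exact congrArg Subtype.val this
    change g (u : UnitAddCircle) ∈ Λ
    rw [h3]; exact huΛ
  refine (hu h2).mono fun n hn => ?_
  rw [iter_coe] at hn
  have h4 : g ((((L : ℝ) ^ n * u : ℝ) : UnitAddCircle)) ∈ Λ := hn
  set v := g ((((L : ℝ) ^ n * u : ℝ) : UnitAddCircle)) with hv
  have h5 : ((v : ℝ) : UnitAddCircle) = (((L : ℝ) ^ n * u : ℝ) : UnitAddCircle) :=
    AddCircle.coe_equivIoc (p := (1 : ℝ)) (a := 0)
  rw [← sub_eq_zero, ← AddCircle.coe_sub, AddCircle.coe_eq_zero_iff] at h5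
  obtain ⟨k, hk⟩ := h5
  refine ⟨k, ?_⟩
  have : (L : ℝ) ^ n * u + k = v := by
    have h6 : (k : ℝ) = v - (L : ℝ) ^ n * u := by simpa using hk
    rw [h6]; ring
  rw [this]; exact h4

lemma good_set {L k₀ : ℕ} (hL : 1 < L) {A ε₀ : ℝ} (hA : 0 < A) (hε : 0 < ε₀)
    (hsmall : 36 * A * ε₀ < 1)
    (hdet : ∀ ε, ε₀ / 2 < ε → ε < ε₀ → ∀ j : ℕ, (L : ℝ) ^ (k₀ + j) * ε₀ ≤ 1 / 8 →
      A * ε₀ / 2 ^ j ≤ |Real.cos (2 * Real.pi * ((L : ℝ) ^ (k₀ + j) * (1 / 4 + ε)))|) :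
    volume {u : ℝ | u ∈ Set.Ioo (1 / 4 + ε₀ / 2) (1 / 4 + ε₀) ∧ ∀ j : ℕ, A * ε₀ / 2 ^ j ≤
      |Real.cos (2 * Real.pi * ((L : ℝ) ^ (k₀ + j) * u))|} ≠ 0 := by
  set Λ := {u : ℝ | u ∈ Set.Ioo (1 / 4 + ε₀ / 2) (1 / 4 + ε₀) ∧ ∀ j : ℕ, A * ε₀ / 2 ^ j ≤
      |Real.cos (2 * Real.pi * ((L : ℝ) ^ (k₀ + j) * u))|} with hΛ
  set B : ℕ → Set ℝ := fun j => {u | u ∈ Set.Ioo (1 / 4 + ε₀ / 2) (1 / 4 + ε₀) ∧
      |Real.cos (2 * Real.pi * ((L : ℝ) ^ (k₀ + j) * u))| < A * ε₀ / 2 ^ j} with hB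
  intro h0
  have hcov : Set.Ioo (1 / 4 + ε₀ / 2) (1 / 4 + ε₀) ⊆ Λ ∪ ⋃ j, B j := by
    intro u hu
    by_cases h : ∀ j : ℕ, A * ε₀ / 2 ^ j ≤ |Real.cos (2 * Real.pi * ((L : ℝ) ^ (k₀ + j) * u))|
    · exact Or.inl ⟨hu, h⟩
    · push Not at h
      obtain ⟨j, hj⟩ := h
      exact Or.inr (Set.mem_iUnion.2 ⟨j, hu, hj⟩)
  have hBj : ∀ j, volume (B j) ≤ ENNReal.ofReal (9 * A * ε₀ ^ 2 * (1 / 2) ^ j) := by
    intro j
    by_cases hj : (L : ℝ) ^ (k₀ + j) * ε₀ ≤ 1 / 8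
    · have : B j = ∅ := by
        ext u
        simp only [hB, Set.mem_ofPred_eq, Set.mem_empty_iff_false, iff_false, not_and, not_lt]
        intro hu
        have := hdet (u - 1 / 4) (by linarith [hu.1]) (by linarith [hu.2]) j hj
        rwa [add_sub_cancel] at this
      rw [this, measure_empty]
      exact bot_le
    · push Not at hj
      have hN : (0 : ℝ) < (L : ℝ) ^ (k₀ + j) := by
        have : (0 : ℝ) < L := by exact_mod_cast (by omega : 0 < L)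
        positivity
      set N : ℝ := (L : ℝ) ^ (k₀ + j) with hNdef
      set G : Set ℝ := {x : ℝ | |Real.cos (2 * Real.pi * x)| < A * ε₀ / 2 ^ j} with hG
      have hGm : MeasurableSet G := by
        apply IsOpen.measurableSet
        apply isOpen_lt _ continuous_const
        fun_prop
      have hGp : ∀ x, x + 1 ∈ G ↔ x ∈ G := fun y => by
        change |Real.cos (2 * Real.pi * (y + 1))| < _ ↔ |Real.cos (2 * Real.pi * y)| < _
        rw [mul_add, mul_one, Real.cos_add_two_pi]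
      have hv := volume_periodic_scale hGm hGp (1 / 4 + ε₀ / 2) N hN ⌈N * (ε₀ / 2)⌉₊
      have hsub : B j ⊆ {x | x ∈ Set.Icc (1 / 4 + ε₀ / 2) (1 / 4 + ε₀ / 2 + ⌈N * (ε₀ / 2)⌉₊ / N) ∧
          N * x ∈ G} := by
        rintro u ⟨hu1, hu2⟩
        refine ⟨⟨hu1.1.le, ?_⟩, hu2⟩
        have h1 : N * (ε₀ / 2) ≤ ⌈N * (ε₀ / 2)⌉₊ := Nat.le_ceil _
        have h2 : ε₀ / 2 ≤ ⌈N * (ε₀ / 2)⌉₊ / N := by
          rw [le_div_iff₀ hN]; linarith
        linarith [hu1.2]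
      refine (measure_mono hsub).trans ?_
      rw [hv]
      have h3 : (⌈N * (ε₀ / 2)⌉₊ : ℝ) / N ≤ 9 * ε₀ := by
        have h4 := (Nat.ceil_lt_add_one (by positivity : 0 ≤ N * (ε₀ / 2))).le
        rw [div_le_iff₀ hN]
        nlinarith
      calc ENNReal.ofReal (⌈N * (ε₀ / 2)⌉₊ / N) * volume (G ∩ Set.Ioc 0 1)
          ≤ ENNReal.ofReal (9 * ε₀) * ENNReal.ofReal (A * ε₀ / 2 ^ j) := by
            gcongr
            exact cos_meas (by positivity)
        _ = ENNReal.ofReal (9 * A * ε₀ ^ 2 * (1 / 2) ^ j) := by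
            rw [← ENNReal.ofReal_mul (by positivity)]
            congr 1
            rw [one_div_pow]; ring
  have h1 : volume (Set.Ioo (1 / 4 + ε₀ / 2) (1 / 4 + ε₀)) ≤ ENNReal.ofReal (18 * A * ε₀ ^ 2) := by
    refine (measure_mono hcov).trans ((measure_union_le _ _).trans ?_)
    rw [h0, zero_add]
    refine (measure_iUnion_le _).trans ((ENNReal.tsum_le_tsum hBj).trans (le_of_eq ?_))
    rw [← ENNReal.ofReal_tsum_of_nonneg (fun k => by positivity)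
      (summable_geometric_two.mul_left _), tsum_mul_left, tsum_geometric_two]
    congr 1; ring
  rw [Real.volume_Ioo, ENNReal.ofReal_le_ofReal_iff (by positivity)] at h1
  nlinarith

/-! ### Escape -/

lemma cf_norm (α : ℂ) (u : ℝ) : ‖cf α u‖ = ‖α‖ * |Real.cos (2 * Real.pi * u)| := by
  rw [cf, norm_mul, Complex.norm_real, Real.norm_eq_abs]

lemma cf_norm_le {α : ℂ} (hα : ‖α‖ < 1) (u : ℝ) : ‖cf α u‖ ≤ 1 := by
  rw [cf_norm]
  have h1 := Real.abs_cos_le_one (2 * Real.pi * u)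
  have h2 := abs_nonneg (Real.cos (2 * Real.pi * u))
  have h3 := norm_nonneg α
  nlinarith

lemma Phi_sr (L : ℕ) (α w : ℂ) (n : ℕ) (x : ℝ) : Phi L α w (n + 1) x =
    Phi L α w n x + cf α ((L : ℝ) ^ n * x) * Phi L α w n x * (1 - Phi L α w n x) := by
  rw [Phi_succ, cc_cr, cr, cf]

/-- the crude escape criterion -/
lemma crude {L : ℕ} {α : ℂ} (hα : ‖α‖ < 1) {x r : ℝ}
    (h : ∀ j : ℕ, 4 ≤ ‖cf α ((L : ℝ) ^ j * x)‖ * (2 ^ j * r)) {w : ℂ} (hw : r ≤ ‖w‖) :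
    ∀ j, 2 ^ j * r ≤ ‖Phi L α w j x‖ := by
  intro j
  induction j with
  | zero => rw [Phi_zero]; simpa using hw
  | succ j ih =>
    rw [Phi_sr]
    set P := Phi L α w j x with hP
    set c := cf α ((L : ℝ) ^ j * x) with hc
    have h1 : 4 ≤ ‖c‖ * ‖P‖ := (h j).trans (mul_le_mul_of_nonneg_left ih (norm_nonneg _))
    have h2 : ‖c‖ ≤ 1 := cf_norm_le hα _
    have h3 : P + c * P * (1 - P) = P * ((1 + c) - c * P) := by ring
    rw [h3, norm_mul]
    have h4 : ‖c * P‖ - ‖1 + c‖ ≤ ‖(1 + c) - c * P‖ := by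
      rw [norm_sub_rev]; exact norm_sub_norm_le _ _
    have h5 : ‖1 + c‖ ≤ 2 := by
      refine (norm_add_le _ _).trans ?_
      rw [norm_one]; linarith
    rw [norm_mul] at h4
    have h6 : 2 ≤ ‖(1 + c) - c * P‖ := by linarith
    have h7 : 0 ≤ ‖P‖ := norm_nonneg _
    calc (2 : ℝ) ^ (j + 1) * r = (2 ^ j * r) * 2 := by ring
      _ ≤ ‖P‖ * ‖(1 + c) - c * P‖ := mul_le_mul ih h6 (by norm_num) h7

lemma esc_of_crude {L : ℕ} {α : ℂ} (hα : ‖α‖ < 1) {u r ρ : ℝ} {m : ℂ} (hr : 0 < r) (k : ℕ)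
    (h1 : ∀ w, ρ ≤ ‖w - m‖ → r ≤ ‖Phi L α w k (((L : ℝ) * u : ℝ) : ℂ)‖)
    (h2 : ∀ j : ℕ, 4 ≤ ‖cf α ((L : ℝ) ^ (k + 1 + j) * u)‖ * (2 ^ j * r)) :
    ∀ R : ℝ, ∃ N, ∀ n ≥ N, ∀ w : ℂ, ρ ≤ ‖w - m‖ →
      R < ‖Phi L α w n (((L : ℝ) * u : ℝ) : ℂ)‖ := by
  intro R
  have hlim : Tendsto (fun j : ℕ => (2 : ℝ) ^ j * r) atTop atTop :=
    (tendsto_pow_atTop_atTop_of_one_lt (by norm_num)).atTop_mul_const hr
  obtain ⟨N, hN⟩ := (hlim.eventually_gt_atTop R).exists_forall_of_atTop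
  refine ⟨k + N, fun n hn w hw => ?_⟩
  obtain ⟨j, rfl⟩ := Nat.exists_eq_add_of_le (show k ≤ n by omega)
  rw [Phi_add_real]
  refine (hN j (by omega)).trans_le (crude hα ?_ (h1 w hw) j)
  intro i
  have := h2 i
  have e : (L : ℝ) ^ i * ((L : ℝ) ^ k * ((L : ℝ) * u)) = (L : ℝ) ^ (k + 1 + i) * u := by ring
  rw [e]; exact this

/-- one step in the coordinates centred at the critical points -/
lemma step_x {c c' w : ℂ} {Q τ x xs : ℝ} (hc : c ≠ 0) (hc' : c' ≠ 0) (hτ : ‖c‖ ≤ τ)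
    (hτ' : ‖c'‖ ≤ τ) (hQ : Q * ‖c‖ ≤ ‖c'‖) (hQ2 : 2 ≤ Q) (hxs : 74 / 100 ≤ xs) (hx : xs ≤ x)
    (hτ1 : τ ≤ 1 / 1000) (hg : 13 / 10 * xs ≤ Q * (xs ^ 2 - (1 + τ) ^ 2 / 4) - (1 + τ) / 2)
    (hw : x ≤ ‖c‖ * ‖w - (1 + c) / (2 * c)‖) :
    13 / 10 * x ≤ ‖c'‖ * ‖(w + c * w * (1 - w)) - (1 + c') / (2 * c')‖ := by
  have hc0 : 0 < ‖c‖ := norm_pos_iff.2 hc
  have hc0' : 0 < ‖c'‖ := norm_pos_iff.2 hc'
  have hτ0 : 0 ≤ τ := (norm_nonneg _).trans hτ
  set ξ := w - (1 + c) / (2 * c) with hξ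
  have e1 : c' * ((w + c * w * (1 - w)) - (1 + c') / (2 * c')) =
      c' * ((1 + c) ^ 2 / (4 * c)) - c' * (c * ξ ^ 2) - (1 + c') / 2 := by
    rw [hξ]; field_simp; ring
  have e2 : ‖c'‖ * ‖(w + c * w * (1 - w)) - (1 + c') / (2 * c')‖ =
      ‖c' * ((1 + c) ^ 2 / (4 * c)) - c' * (c * ξ ^ 2) - (1 + c') / 2‖ := by
    rw [← norm_mul, e1]
  have h1 : ‖1 + c‖ ≤ 1 + τ := (norm_add_le _ _).trans (by rw [norm_one]; linarith)
  have h1' : ‖1 + c'‖ ≤ 1 + τ := (norm_add_le _ _).trans (by rw [norm_one]; linarith)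
  have h2 : ‖c' * ((1 + c) ^ 2 / (4 * c))‖ ≤ ‖c'‖ / ‖c‖ * ((1 + τ) ^ 2 / 4) := by
    rw [norm_mul, norm_div, norm_pow, norm_mul]
    have : ‖(4 : ℂ)‖ = 4 := by simp
    rw [this]
    have h3 : ‖1 + c‖ ^ 2 ≤ (1 + τ) ^ 2 := pow_le_pow_left₀ (norm_nonneg _) h1 2
    calc ‖c'‖ * (‖1 + c‖ ^ 2 / (4 * ‖c‖)) = ‖c'‖ / ‖c‖ * (‖1 + c‖ ^ 2 / 4) := by field_simp
      _ ≤ _ := by gcongr
  have h3 : ‖c' * (c * ξ ^ 2)‖ = ‖c'‖ / ‖c‖ * (‖c‖ * ‖ξ‖) ^ 2 := by
    rw [norm_mul, norm_mul, norm_pow]; field_simp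
  have h4 : ‖(1 + c') / 2‖ ≤ (1 + τ) / 2 := by
    rw [norm_div]
    have : ‖(2 : ℂ)‖ = 2 := by simp
    rw [this]; linarith
  have h5 : ‖c' * (c * ξ ^ 2)‖ - ‖c' * ((1 + c) ^ 2 / (4 * c))‖ - ‖(1 + c') / 2‖ ≤
      ‖c' * ((1 + c) ^ 2 / (4 * c)) - c' * (c * ξ ^ 2) - (1 + c') / 2‖ := by
    have t1 := norm_sub_norm_le (c' * ((1 + c) ^ 2 / (4 * c)) - c' * (c * ξ ^ 2)) ((1 + c') / 2)
    have t2 := norm_sub_norm_le (c' * (c * ξ ^ 2)) (c' * ((1 + c) ^ 2 / (4 * c)))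
    rw [norm_sub_rev] at t2
    linarith
  rw [e2]
  set X := ‖c‖ * ‖ξ‖ with hX
  set q := ‖c'‖ / ‖c‖ with hq
  have hqQ : Q ≤ q := by rw [hq, le_div_iff₀ hc0]; exact hQ
  have hx0 : 0 ≤ x := by linarith
  have hX2 : x ^ 2 ≤ X ^ 2 := pow_le_pow_left₀ hx0 hw 2
  have hxs2 : (1 + τ) ^ 2 / 4 ≤ xs ^ 2 := by nlinarith
  have hxx : xs ^ 2 ≤ x ^ 2 := pow_le_pow_left₀ (by linarith) hx 2
  have h6 : Q * (x ^ 2 - (1 + τ) ^ 2 / 4) ≤ q * (X ^ 2 - (1 + τ) ^ 2 / 4) :=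
    mul_le_mul hqQ (by linarith) (by linarith) (by linarith)
  have h7 : 13 / 10 * x ≤ Q * (x ^ 2 - (1 + τ) ^ 2 / 4) - (1 + τ) / 2 := by
    have h8 : 13 / 10 * (x - xs) ≤ Q * (x ^ 2 - xs ^ 2) := by
      have h9 : x ^ 2 - xs ^ 2 = (x - xs) * (x + xs) := by ring
      rw [h9]
      have h10 : 0 ≤ x - xs := by linarith
      have h11 : 13 / 10 ≤ Q * (x + xs) := by nlinarith
      nlinarith [mul_le_mul_of_nonneg_left h11 h10]
    nlinarith
  rw [h3] at h5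
  nlinarith

/-- the distance of the critical value from the next critical point -/
lemma far_odd {c₀ c₁ : ℂ} {q τ xs : ℝ} (hc₀ : c₀ ≠ 0) (hc₁ : c₁ ≠ 0) (hτ : ‖c₀‖ ≤ τ)
    (hτ' : ‖c₁‖ ≤ τ) (σ : ℝ) (hσ : |σ| = 1) (hc : c₁ = ((σ * q : ℝ) : ℂ) * c₀) (hq : 0 ≤ q)
    (hx : xs < |σ * q / 4 - 1 / 2| - q * (2 * τ + τ ^ 2) / 4 - τ / 2) :
    xs < ‖c₁‖ * ‖(1 + c₀) ^ 2 / (4 * c₀) - (1 + c₁) / (2 * c₁)‖ := by
  rw [← norm_mul]
  have e : c₁ * ((1 + c₀) ^ 2 / (4 * c₀) - (1 + c₁) / (2 * c₁)) =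
      ((σ * q / 4 - 1 / 2 : ℝ) : ℂ) + (((σ * q / 4 : ℝ) : ℂ) * (2 * c₀ + c₀ ^ 2) - c₁ / 2) := by
    have h1 : c₁ * ((1 + c₀) ^ 2 / (4 * c₀) - (1 + c₁) / (2 * c₁)) =
        (c₁ / c₀) * ((1 + c₀) ^ 2 / 4) - (1 + c₁) / 2 := by field_simp
    have h2 : c₁ / c₀ = ((σ * q : ℝ) : ℂ) := by rw [hc]; field_simp
    rw [h1, h2]; push_cast; ring
  rw [e]
  have h1 : ‖((σ * q / 4 : ℝ) : ℂ) * (2 * c₀ + c₀ ^ 2) - c₁ / 2‖ ≤
      q * (2 * τ + τ ^ 2) / 4 + τ / 2 := by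
    refine (norm_sub_le _ _).trans ?_
    have h2 : ‖2 * c₀ + c₀ ^ 2‖ ≤ 2 * τ + τ ^ 2 := by
      refine (norm_add_le _ _).trans ?_
      rw [norm_mul, norm_pow]
      have : ‖(2 : ℂ)‖ = 2 := by simp
      rw [this]
      have := norm_nonneg c₀
      nlinarith
    have h3 : ‖((σ * q / 4 : ℝ) : ℂ)‖ = q / 4 := by
      rw [Complex.norm_real, Real.norm_eq_abs, abs_div, abs_mul, hσ, abs_of_nonneg hq]
      norm_num
    rw [norm_mul, h3, norm_div]
    have : ‖(2 : ℂ)‖ = 2 := by simp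
    rw [this]
    have h4 : q / 4 * ‖2 * c₀ + c₀ ^ 2‖ ≤ q / 4 * (2 * τ + τ ^ 2) :=
      mul_le_mul_of_nonneg_left h2 (by positivity)
    linarith
  have h5 := norm_sub_norm_le ((σ * q / 4 - 1 / 2 : ℝ) : ℂ)
    (-(((σ * q / 4 : ℝ) : ℂ) * (2 * c₀ + c₀ ^ 2) - c₁ / 2))
  rw [norm_neg, sub_neg_eq_add, Complex.norm_real, Real.norm_eq_abs] at h5
  linarith

/-! ### Trigonometry -/

lemma cos_odd (N : ℕ) (hN : N % 2 = 1) (ε : ℝ) :
    Real.cos (2 * Real.pi * (N * (1 / 4 + ε))) =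
      (if N % 4 = 1 then -1 else 1) * Real.sin (2 * Real.pi * (N * ε)) := by
  have h4 : N % 4 = 1 ∨ N % 4 = 3 := by omega
  rcases h4 with h | h
  · obtain ⟨a, ha⟩ : ∃ a, N = 4 * a + 1 := ⟨N / 4, by omega⟩
    rw [if_pos h]
    have e : 2 * Real.pi * ((N : ℝ) * (1 / 4 + ε)) =
        (2 * Real.pi * (N * ε) + Real.pi / 2) + (a : ℕ) * (2 * Real.pi) := by
      rw [ha]; push_cast; ring
    rw [e, Real.cos_add_nat_mul_two_pi, Real.cos_add_pi_div_two]
    ring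
  · obtain ⟨a, ha⟩ : ∃ a, N = 4 * a + 3 := ⟨N / 4, by omega⟩
    rw [if_neg (by omega)]
    have e : 2 * Real.pi * ((N : ℝ) * (1 / 4 + ε)) =
        ((2 * Real.pi * (N * ε) + Real.pi / 2) + Real.pi) + (a : ℕ) * (2 * Real.pi) := by
      rw [ha]; push_cast; ring
    rw [e, Real.cos_add_nat_mul_two_pi, Real.cos_add_pi, Real.cos_add_pi_div_two]
    ring

lemma cos_even (N : ℕ) (hN : N % 2 = 0) (ε : ℝ) :
    |Real.cos (2 * Real.pi * (N * (1 / 4 + ε)))| = |Real.cos (2 * Real.pi * (N * ε))| := by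
  obtain ⟨a, ha⟩ : ∃ a, N = 2 * a := ⟨N / 2, by omega⟩
  have e : 2 * Real.pi * ((N : ℝ) * (1 / 4 + ε)) = 2 * Real.pi * (N * ε) + a * Real.pi := by
    rw [ha]; push_cast; ring
  rw [e, Real.cos_add_nat_mul_pi, abs_mul, abs_pow, abs_neg, abs_one, one_pow, one_mul]

/-- the data needed for the construction -/
def Data (L : ℕ) (α : ℂ) : Prop :=
  ∃ (ε₀ A R₁ : ℝ) (k₀ : ℕ), 0 < ε₀ ∧ ε₀ < 1 / 4 ∧ 0 < A ∧ 0 < R₁ ∧ 36 * A * ε₀ < 1 ∧
    (∀ ε, ε₀ / 2 < ε → ε < ε₀ → ∀ j : ℕ, (L : ℝ) ^ (k₀ + j) * ε₀ ≤ 1 / 8 →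
      A * ε₀ / 2 ^ j ≤ |Real.cos (2 * Real.pi * ((L : ℝ) ^ (k₀ + j) * (1 / 4 + ε)))|) ∧
    ∀ u ∈ Set.Ioo (1 / 4 + ε₀ / 2) (1 / 4 + ε₀), (∀ j : ℕ, A * ε₀ / 2 ^ j ≤
      |Real.cos (2 * Real.pi * ((L : ℝ) ^ (k₀ + j) * u))|) →
      ∃ m ρ, ‖m‖ + ρ ≤ R₁ ∧ Esc L α u m ρ

lemma cf_quarter {α : ℂ} {ε : ℝ} : cf α (1 / 4 + ε) = -(α * ((Real.sin (2 * Real.pi * ε) : ℝ) : ℂ)) := by
  have h := cos_odd 1 rfl ε
  simp only [Nat.cast_one, one_mul] at h
  rw [cf, h]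
  simp

lemma even_case {L : ℕ} (hL : 1 < L) (heven : L % 2 = 0) {α : ℂ} (hα0 : α ≠ 0) (hα : ‖α‖ < 1) :
    Data L α := by
  have hpi := Real.pi_pos
  have hpi3 := Real.pi_gt_three
  have hpi4 := Real.pi_lt_four
  have hα0' : 0 < ‖α‖ := norm_pos_iff.2 hα0
  set ε₀ : ℝ := 1 / 20000 with hε₀
  refine ⟨ε₀, 80 * Real.pi, 2 * (1 / (20 * Real.pi * ‖α‖ * ε₀)), 1, by norm_num, by norm_num,
    by positivity, by positivity, by rw [hε₀]; nlinarith, ?_, ?_⟩
  · intro ε h1 h2 j hj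
    have hN : (L : ℝ) ^ (1 + j) = ((L ^ (1 + j) : ℕ) : ℝ) := by push_cast; rfl
    have hNe : L ^ (1 + j) % 2 = 0 := by
      rw [pow_add, pow_one, Nat.mul_mod, heven]; simp
    rw [hN, cos_even _ hNe, ← hN]
    have hL0 : (0 : ℝ) < (L : ℝ) ^ (1 + j) := by
      have : (0 : ℝ) < L := by exact_mod_cast (by omega : 0 < L)
      positivity
    have h3 : (L : ℝ) ^ (1 + j) * ε ≤ 1 / 8 := by
      refine le_trans ?_ hj
      exact mul_le_mul_of_nonneg_left h2.le hL0.le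
    have h4 : 0 ≤ (L : ℝ) ^ (1 + j) * ε := by
      have : 0 < ε := by have : (0:ℝ) < ε₀ := by norm_num
                         linarith
      positivity
    have h5 : Real.cos (Real.pi / 4) ≤ Real.cos (2 * Real.pi * ((L : ℝ) ^ (1 + j) * ε)) := by
      apply Real.cos_le_cos_of_nonneg_of_le_pi
      · positivity
      · linarith
      · nlinarith
    rw [Real.cos_pi_div_four] at h5
    have h6 : (7 / 5 : ℝ) ≤ Real.sqrt 2 := by
      rw [Real.le_sqrt (by norm_num) (by norm_num)]; norm_num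
    have h7 : 80 * Real.pi * ε₀ / 2 ^ j ≤ 80 * Real.pi * ε₀ := by
      apply div_le_self (by positivity)
      exact one_le_pow₀ (by norm_num)
    have h8 : 80 * Real.pi * ε₀ ≤ 7 / 10 := by rw [hε₀]; linarith
    refine le_trans ?_ (le_abs_self _)
    linarith
  · intro u hu hcos
    obtain ⟨ε, rfl⟩ : ∃ ε, u = 1 / 4 + ε := ⟨u - 1 / 4, by ring⟩
    have h1 : ε₀ / 2 < ε := by linarith [hu.1]
    have h2 : ε < ε₀ := by
      have h3 := hu.2
      exact (add_lt_add_iff_left _).1 h3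
    have hε₀0 : 0 < ε₀ := by norm_num
    have hε0 : 0 < ε := by linarith
    set c := cf α (1 / 4 + ε) with hc
    have hcs : c = -(α * ((Real.sin (2 * Real.pi * ε) : ℝ) : ℂ)) := cf_quarter
    have hsin : 0 < Real.sin (2 * Real.pi * ε) := by
      apply Real.sin_pos_of_pos_of_lt_pi (by positivity)
      rw [hε₀] at h2
      nlinarith
    have hcn : ‖c‖ = ‖α‖ * Real.sin (2 * Real.pi * ε) := by
      rw [hcs, norm_neg, norm_mul, Complex.norm_real, Real.norm_eq_abs, abs_of_pos hsin]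
    have hc0 : c ≠ 0 := by
      rw [← norm_pos_iff, hcn]; positivity
    have hc0' : 0 < ‖c‖ := norm_pos_iff.2 hc0
    have hcle : ‖c‖ ≤ 2 * Real.pi * ‖α‖ * ε₀ := by
      rw [hcn]
      have h3 := Real.sin_le (by positivity : 0 ≤ 2 * Real.pi * ε)
      calc ‖α‖ * Real.sin (2 * Real.pi * ε) ≤ ‖α‖ * (2 * Real.pi * ε₀) := by
            apply mul_le_mul_of_nonneg_left _ hα0'.le
            refine h3.trans ?_
            apply mul_le_mul_of_nonneg_left h2.le (by positivity)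
        _ = _ := by ring
    have hc1 : ‖c‖ ≤ 1 / 10 := by
      refine hcle.trans ?_
      rw [hε₀]
      nlinarith
    set r := 1 / (20 * Real.pi * ‖α‖ * ε₀) with hr
    have hr0 : 0 < r := by positivity
    refine ⟨0, r, by rw [norm_zero, zero_add]; linarith, hr0, hc0, ?_, ?_⟩
    · change r < ‖(1 + c) ^ 2 / (4 * c) - 0‖
      rw [sub_zero, norm_div, norm_pow, norm_mul]
      have h4 : ‖(4 : ℂ)‖ = 4 := by simp
      rw [h4]
      have h5 : 9 / 10 ≤ ‖1 + c‖ := by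
        have := norm_sub_norm_le (1 : ℂ) (-c)
        rw [norm_neg, norm_one, sub_neg_eq_add] at this
        linarith
      have h6 : (81 / 100 : ℝ) ≤ ‖1 + c‖ ^ 2 := by nlinarith
      rw [lt_div_iff₀ (by positivity)]
      refine lt_of_lt_of_le ?_ h6
      have h7 : r * (4 * ‖c‖) ≤ r * (4 * (2 * Real.pi * ‖α‖ * ε₀)) := by gcongr
      have h8 : r * (4 * (2 * Real.pi * ‖α‖ * ε₀)) = 2 / 5 := by
        rw [hr]; field_simp; norm_num
      exact lt_of_le_of_lt (h7.trans h8.le) (by norm_num)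
    · refine esc_of_crude hα hr0 0 (fun w hw => ?_) (fun j => ?_)
      · rw [Phi_zero]; simpa using hw
      · have h3 := hcos j
        rw [cf_norm]
        have h4 : ((0 : ℕ) + 1 + j) = 1 + j := by ring
        rw [h4]
        calc (4 : ℝ) = ‖α‖ * (80 * Real.pi * ε₀ / 2 ^ j) * (2 ^ j * r) := by
              rw [hr]; field_simp; norm_num
          _ ≤ _ := by gcongr

lemma ratio_sin {L θ : ℝ} (hL : 1 ≤ L) (hθ : 0 < θ) (hθ1 : θ ≤ 1 / (1000 * L ^ 3)) :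
    (L - 1 / 1000) * Real.sin θ ≤ Real.sin (L * θ) := by
  have hL3 : 1 ≤ L ^ 3 := one_le_pow₀ hL
  have h1 : L * θ ≤ 1 := by
    have : L * θ ≤ L * (1 / (1000 * L ^ 3)) := by gcongr
    have h2 : L * (1 / (1000 * L ^ 3)) = 1 / (1000 * L ^ 2) := by field_simp
    have h3 : 1 / (1000 * L ^ 2) ≤ 1 := by
      rw [div_le_one (by positivity)]
      have : 1 ≤ L ^ 2 := one_le_pow₀ hL
      linarith
    linarith
  have h2 := Real.sin_gt_sub_cube (by positivity : 0 < L * θ)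
  have h3 := Real.sin_le hθ.le
  have h4 : (L - 1 / 1000) * Real.sin θ ≤ (L - 1 / 1000) * θ :=
    mul_le_mul_of_nonneg_left h3 (by linarith)
  have h5 : (L * θ) ^ 3 / 6 ≤ 1 / 1000 * θ := by
    have h6 : (L * θ) ^ 3 = (L ^ 3 * θ) * θ * θ := by ring
    have h7 : L ^ 3 * θ ≤ 1 / 1000 := by
      have : L ^ 3 * θ ≤ L ^ 3 * (1 / (1000 * L ^ 3)) := by gcongr
      have h8 : L ^ 3 * (1 / (1000 * L ^ 3)) = 1 / 1000 := by field_simp
      linarith
    have h9 : θ ≤ 1 := by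
      refine hθ1.trans ?_
      rw [div_le_one (by positivity)]; linarith
    rw [h6]
    have h10 : (L ^ 3 * θ) * θ * θ ≤ 1 / 1000 * θ * θ := by gcongr
    nlinarith
  linarith

lemma odd_case {L : ℕ} (hL : 3 ≤ L) (hodd : L % 2 = 1) {α : ℂ} (hα0 : α ≠ 0) (hα : ‖α‖ < 1) :
    Data L α := by
  have hpi := Real.pi_pos
  have hpi3 := Real.pi_gt_three
  have hpi4 : Real.pi < 3.15 := Real.pi_lt_d2
  have hα0' : 0 < ‖α‖ := norm_pos_iff.2 hα0
  have hLr : (3 : ℝ) ≤ L := by exact_mod_cast hL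
  have hL0 : (0 : ℝ) < L := by linarith
  have hL1 : (1 : ℝ) ≤ L := by linarith
  obtain ⟨ε₀, hε₀⟩ : ∃ ε₀ : ℝ, ε₀ = 1 / (7000 * (L : ℝ) ^ 17) := ⟨_, rfl⟩
  have hε₀0 : 0 < ε₀ := by rw [hε₀]; positivity
  have hodd' : ∀ k, L ^ k % 2 = 1 := fun k => by rw [Nat.pow_mod, hodd]; simp
  have habs : ∀ (k : ℕ) (ε : ℝ), |Real.cos (2 * Real.pi * ((L : ℝ) ^ k * (1 / 4 + ε)))| =
      |Real.sin (2 * Real.pi * ((L : ℝ) ^ k * ε))| := by
    intro k ε
    have hN : (L : ℝ) ^ k = ((L ^ k : ℕ) : ℝ) := by push_cast; rfl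
    rw [hN, cos_odd _ (hodd' k), abs_mul]
    split_ifs <;> simp
  refine ⟨ε₀, 2 * (L : ℝ) ^ 14, 1 / (‖α‖ * L * ε₀), 14, hε₀0, ?_, by positivity, by positivity,
    ?_, ?_, ?_⟩
  · rw [hε₀, div_lt_div_iff₀ (by positivity) (by norm_num)]
    have : (1 : ℝ) ≤ (L : ℝ) ^ 17 := one_le_pow₀ hL1
    linarith
  · rw [hε₀]
    have h1 : 36 * (2 * (L : ℝ) ^ 14) * (1 / (7000 * (L : ℝ) ^ 17)) = 72 / (7000 * (L : ℝ) ^ 3) := by
      field_simp; norm_num
    rw [h1, div_lt_one (by positivity)]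
    have : (1 : ℝ) ≤ (L : ℝ) ^ 3 := one_le_pow₀ hL1
    linarith
  · intro ε h1 h2 j hj
    rw [habs]
    have hε0 : 0 < ε := by linarith
    have hN : (0 : ℝ) < (L : ℝ) ^ (14 + j) := by positivity
    have h3 : (L : ℝ) ^ (14 + j) * ε ≤ 1 / 8 := by
      refine le_trans ?_ hj
      exact mul_le_mul_of_nonneg_left h2.le hN.le
    have h4 := Real.mul_le_sin (x := 2 * Real.pi * ((L : ℝ) ^ (14 + j) * ε)) (by positivity)
      (by nlinarith)
    have h5 : 2 / Real.pi * (2 * Real.pi * ((L : ℝ) ^ (14 + j) * ε)) = 4 * ((L : ℝ) ^ (14 + j) * ε) := by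
      field_simp; ring
    rw [h5] at h4
    refine le_trans ?_ (h4.trans (le_abs_self _))
    have h6 : (L : ℝ) ^ 14 ≤ (L : ℝ) ^ (14 + j) := pow_le_pow_right₀ hL1 (by omega)
    have h7 : 2 * (L : ℝ) ^ 14 * ε₀ / 2 ^ j ≤ 2 * (L : ℝ) ^ 14 * ε₀ := by
      apply div_le_self (by positivity)
      exact one_le_pow₀ (by norm_num)
    nlinarith [mul_le_mul h6 h1.le (by positivity) hN.le]
  · intro u hu hcos
    obtain ⟨ε, rfl⟩ : ∃ ε, u = 1 / 4 + ε := ⟨u - 1 / 4, by ring⟩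
    have h1 : ε₀ / 2 < ε := (add_lt_add_iff_left _).1 hu.1
    have h2 : ε < ε₀ := (add_lt_add_iff_left _).1 hu.2
    have hε0 : 0 < ε := by linarith
    -- the angles
    set θ : ℕ → ℝ := fun k => 2 * Real.pi * ((L : ℝ) ^ k * ε) with hθ
    have hθ0 : ∀ k, 0 < θ k := fun k => by simp only [hθ]; positivity
    have hθ1 : ∀ k ≤ 14, θ k ≤ 1 / (1000 * (L : ℝ) ^ 3) := by
      intro k hk
      have h3 : (L : ℝ) ^ k ≤ (L : ℝ) ^ 14 := pow_le_pow_right₀ hL1 hk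
      calc θ k ≤ 2 * Real.pi * ((L : ℝ) ^ 14 * ε₀) := by simp only [hθ]; gcongr
        _ = (2 * Real.pi / 7) * (1 / (1000 * (L : ℝ) ^ 3)) := by rw [hε₀]; field_simp; ring
        _ ≤ 1 * (1 / (1000 * (L : ℝ) ^ 3)) := by
            apply mul_le_mul_of_nonneg_right _ (by positivity)
            rw [div_le_one (by norm_num)]; linarith
        _ = _ := one_mul _
    have hθ2 : ∀ k ≤ 14, θ k ≤ 1 / 1000 := by
      intro k hk
      refine (hθ1 k hk).trans ?_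
      rw [div_le_div_iff₀ (by positivity) (by norm_num)]
      have : (1 : ℝ) ≤ (L : ℝ) ^ 3 := one_le_pow₀ hL1
      linarith
    have hsin0 : ∀ k ≤ 14, 0 < Real.sin (θ k) := fun k hk =>
      Real.sin_pos_of_pos_of_lt_pi (hθ0 k) (by linarith [hθ2 k hk])
    have hsin1 : ∀ k, Real.sin (θ k) ≤ θ k := fun k => Real.sin_le (hθ0 k).le
    have hθs : ∀ k, θ (k + 1) = L * θ k := fun k => by simp only [hθ]; ring
    -- the coefficients
    set C : ℕ → ℂ := fun k => cf α ((L : ℝ) ^ k * (1 / 4 + ε)) with hC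
    have hCn : ∀ k ≤ 14, ‖C k‖ = ‖α‖ * Real.sin (θ k) := by
      intro k hk
      simp only [hC]
      rw [cf_norm, habs, abs_of_pos (hsin0 k hk)]
    have hC0 : ∀ k ≤ 14, C k ≠ 0 := fun k hk => by
      rw [← norm_pos_iff, hCn k hk]
      exact mul_pos hα0' (hsin0 k hk)
    have hCτ : ∀ k ≤ 14, ‖C k‖ ≤ 1 / 1000 := by
      intro k hk
      rw [hCn k hk]
      have := hsin0 k hk
      nlinarith [hsin1 k, hθ2 k hk]
    have hCQ : ∀ k, k + 1 ≤ 14 → ((L : ℝ) - 1 / 1000) * ‖C k‖ ≤ ‖C (k + 1)‖ := by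
      intro k hk
      rw [hCn k (by omega), hCn (k + 1) hk, hθs]
      have h3 := ratio_sin hL1 (hθ0 k) (hθ1 k (by omega))
      calc ((L : ℝ) - 1 / 1000) * (‖α‖ * Real.sin (θ k)) =
            ‖α‖ * (((L : ℝ) - 1 / 1000) * Real.sin (θ k)) := by ring
        _ ≤ _ := mul_le_mul_of_nonneg_left h3 hα0'.le
    have hC00 : C 0 = cf α (1 / 4 + ε) := by simp [hC]
    have hC11 : C 1 = cf α ((L : ℝ) * (1 / 4 + ε)) := by simp [hC]
    -- the threshold
    obtain ⟨xs, hxs1, hxs2, hg, hfar⟩ : ∃ xs : ℝ, 74 / 100 ≤ xs ∧ xs ≤ 1 ∧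
        13 / 10 * xs ≤ ((L : ℝ) - 1 / 1000) * (xs ^ 2 - (1 + 1 / 1000) ^ 2 / 4) -
          (1 + 1 / 1000) / 2 ∧
        xs < ‖C 1‖ * ‖(1 + C 0) ^ 2 / (4 * C 0) - (1 + C 1) / (2 * C 1)‖ := by
      set q := Real.sin (θ 1) / Real.sin (θ 0) with hq
      have hs0 := hsin0 0 (by omega)
      have hs1 := hsin0 1 (by omega)
      have hq0 : 0 < q := by positivity
      have hqL : (L : ℝ) - 1 / 1000 ≤ q := by
        rw [hq, le_div_iff₀ hs0, hθs 0]
        exact ratio_sin hL1 (hθ0 0) (hθ1 0 (by omega))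
      have hc0 : C 0 = -(α * ((Real.sin (θ 0) : ℝ) : ℂ)) := by
        rw [hC00, cf_quarter]
        simp [hθ]
      have hc1 : C 1 = α * (((if L % 4 = 1 then -1 else 1) * Real.sin (θ 1) : ℝ) : ℂ) := by
        rw [hC11, cf, cos_odd L hodd ε]
        simp [hθ]
      have hrel : ∀ σ : ℝ, σ = -(if L % 4 = 1 then -1 else 1) →
          C 1 = ((σ * q : ℝ) : ℂ) * C 0 := by
        intro σ hσ
        rw [hc0, hc1, hσ, hq]
        have key : ∀ (S0 S1 τ : ℝ), S0 ≠ 0 → α * ((τ * S1 : ℝ) : ℂ) =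
            ((-τ * (S1 / S0) : ℝ) : ℂ) * -(α * (S0 : ℂ)) := by
          intro S0 S1 τ h0
          have : (S0 : ℂ) ≠ 0 := by exact_mod_cast h0
          push_cast
          field_simp
        exact key _ _ _ hs0.ne'
      rcases (show L % 4 = 1 ∨ L % 4 = 3 by omega) with h4 | h4
      · have hσ : (1 : ℝ) = -(if L % 4 = 1 then -1 else 1) := by rw [if_pos h4]; ring
        have hr := hrel 1 hσ
        rcases (show L = 5 ∨ 9 ≤ L by omega) with h5 | h5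
        · subst h5
          refine ⟨74 / 100, le_rfl, by norm_num, by norm_num, ?_⟩
          refine far_odd (hC0 0 (by omega)) (hC0 1 (by omega)) (hCτ 0 (by omega)) (hCτ 1 (by omega))
            1 (by norm_num) hr hq0.le ?_
          push_cast at hqL
          have : 1 * q / 4 - 1 / 2 ≤ |1 * q / 4 - 1 / 2| := le_abs_self _
          nlinarith
        · have h9 : (9 : ℝ) ≤ L := by exact_mod_cast h5
          refine ⟨1, by norm_num, le_rfl, by nlinarith, ?_⟩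
          refine far_odd (hC0 0 (by omega)) (hC0 1 (by omega)) (hCτ 0 (by omega)) (hCτ 1 (by omega))
            1 (by norm_num) hr hq0.le ?_
          have : 1 * q / 4 - 1 / 2 ≤ |1 * q / 4 - 1 / 2| := le_abs_self _
          nlinarith
      · have hσ : (-1 : ℝ) = -(if L % 4 = 1 then -1 else 1) := by rw [if_neg (by omega)]
        have hr := hrel (-1) hσ
        refine ⟨1, by norm_num, le_rfl, by nlinarith, ?_⟩
        refine far_odd (hC0 0 (by omega)) (hC0 1 (by omega)) (hCτ 0 (by omega)) (hCτ 1 (by omega))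
          (-1) (by norm_num) hr hq0.le ?_
        have : -(-1 * q / 4 - 1 / 2) ≤ |-1 * q / 4 - 1 / 2| := neg_le_abs _
        nlinarith
    set m := (1 + C 1) / (2 * C 1) with hm
    have hn1 : 0 < ‖C 1‖ := norm_pos_iff.2 (hC0 1 (by omega))
    have hn14 : 0 < ‖C 14‖ := norm_pos_iff.2 (hC0 14 le_rfl)
    set ρ := xs / ‖C 1‖ with hρ
    have hρ0 : 0 < ρ := by positivity
    -- the thirteen steps
    have hsteps : ∀ w : ℂ, ρ ≤ ‖w - m‖ → ∀ i ≤ 13, (13 / 10) ^ i * xs ≤ ‖C (1 + i)‖ *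
        ‖Phi L α w i (((L : ℝ) * (1 / 4 + ε) : ℝ) : ℂ) - (1 + C (1 + i)) / (2 * C (1 + i))‖ := by
      intro w hw i
      induction i with
      | zero =>
        intro _
        rw [pow_zero, one_mul, Phi_zero, add_zero]
        rw [hρ, div_le_iff₀ hn1] at hw
        linarith
      | succ i ih =>
        intro hi
        have ih' := ih (by omega)
        have hge : xs ≤ (13 / 10) ^ i * xs := by
          have : (1 : ℝ) ≤ (13 / 10) ^ i := one_le_pow₀ (by norm_num)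
          nlinarith
        have hQ := hCQ (1 + i) (by omega)
        have hst := step_x (hC0 (1 + i) (by omega)) (hC0 (1 + i + 1) (by omega))
          (hCτ (1 + i) (by omega)) (hCτ (1 + i + 1) (by omega)) hQ (by linarith) hxs1 hge le_rfl
          hg ih'
        rw [Phi_sr]
        have e1 : cf α ((L : ℝ) ^ i * ((L : ℝ) * (1 / 4 + ε))) = C (1 + i) := by
          simp only [hC]
          congr 1; ring
        rw [e1]
        have e2 : 1 + (i + 1) = 1 + i + 1 := by ring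
        rw [e2]
        calc (13 / 10) ^ (i + 1) * xs = 13 / 10 * ((13 / 10) ^ i * xs) := by ring
          _ ≤ _ := hst
    obtain ⟨r, hr⟩ : ∃ r : ℝ, r = 21 / (2 * Real.pi * ‖α‖ * (L : ℝ) ^ 14 * ε₀) := ⟨_, rfl⟩
    have hr0 : 0 < r := by rw [hr]; positivity
    have hC14 : ‖C 14‖ ≤ 2 * Real.pi * ‖α‖ * (L : ℝ) ^ 14 * ε₀ := by
      rw [hCn 14 le_rfl]
      calc ‖α‖ * Real.sin (θ 14) ≤ ‖α‖ * θ 14 := mul_le_mul_of_nonneg_left (hsin1 14) hα0'.le
        _ = 2 * Real.pi * ‖α‖ * (L : ℝ) ^ 14 * ε := by simp only [hθ]; ring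
        _ ≤ _ := by gcongr
    have hrw : ∀ w : ℂ, ρ ≤ ‖w - m‖ →
        r ≤ ‖Phi L α w 13 (((L : ℝ) * (1 / 4 + ε) : ℝ) : ℂ)‖ := by
      intro w hw
      have h3 := hsteps w hw 13 le_rfl
      have e : 1 + 13 = 14 := rfl
      rw [e] at h3
      set P := Phi L α w 13 (((L : ℝ) * (1 / 4 + ε) : ℝ) : ℂ) with hP
      have h4 : (22 : ℝ) ≤ (13 / 10) ^ 13 * xs := by
        have : (22 : ℝ) ≤ (13 / 10) ^ 13 * (74 / 100) := by norm_num
        refine this.trans ?_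
        gcongr
      have h5 : ‖C 14‖ * ‖P - (1 + C 14) / (2 * C 14)‖ ≤ ‖C 14‖ * ‖P‖ + 1 := by
        have h6 : ‖(1 + C 14) / (2 * C 14)‖ ≤ 1 / ‖C 14‖ := by
          rw [norm_div, norm_mul]
          have : ‖(2 : ℂ)‖ = 2 := by simp
          rw [this, div_le_div_iff₀ (by positivity) hn14]
          have h7 : ‖1 + C 14‖ ≤ 2 := by
            refine (norm_add_le _ _).trans ?_
            rw [norm_one]
            linarith [hCτ 14 le_rfl]
          nlinarith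
        calc ‖C 14‖ * ‖P - (1 + C 14) / (2 * C 14)‖ ≤ ‖C 14‖ * (‖P‖ + 1 / ‖C 14‖) := by
              apply mul_le_mul_of_nonneg_left _ hn14.le
              exact (norm_sub_le _ _).trans (by linarith)
          _ = _ := by field_simp
      have h8 : 21 ≤ ‖C 14‖ * ‖P‖ := by linarith
      rw [hr, div_le_iff₀ (by positivity)]
      calc (21 : ℝ) ≤ ‖C 14‖ * ‖P‖ := h8
        _ ≤ (2 * Real.pi * ‖α‖ * (L : ℝ) ^ 14 * ε₀) * ‖P‖ := by gcongr
        _ = _ := mul_comm _ _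
    refine ⟨m, ρ, ?_, hρ0, ?_, ?_, ?_⟩
    · -- the uniform bound
      have h3 : ‖m‖ ≤ 1 / ‖C 1‖ := by
        rw [hm, norm_div, norm_mul]
        have : ‖(2 : ℂ)‖ = 2 := by simp
        rw [this, div_le_div_iff₀ (by positivity) hn1]
        have h7 : ‖1 + C 1‖ ≤ 2 := by
          refine (norm_add_le _ _).trans ?_
          rw [norm_one]
          linarith [hCτ 1 (by omega)]
        nlinarith
      have h4 : ρ ≤ 1 / ‖C 1‖ := by
        rw [hρ]; gcongr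
      have h5 : 2 * ‖α‖ * L * ε₀ ≤ ‖C 1‖ := by
        rw [hCn 1 (by omega)]
        have h6 := Real.mul_le_sin (x := θ 1) (hθ0 1).le (by linarith [hθ2 1 (by omega)])
        have h7 : 2 / Real.pi * θ 1 = 4 * (L * ε) := by
          simp only [hθ, pow_one]; field_simp; ring
        rw [h7] at h6
        calc 2 * ‖α‖ * L * ε₀ = ‖α‖ * (4 * (L * (ε₀ / 2))) := by ring
          _ ≤ ‖α‖ * (4 * (L * ε)) := by gcongr
          _ ≤ _ := mul_le_mul_of_nonneg_left h6 hα0'.le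
      have h8 : 1 / ‖C 1‖ ≤ 1 / (2 * ‖α‖ * L * ε₀) := by gcongr
      have h9 : 1 / (2 * ‖α‖ * L * ε₀) + 1 / (2 * ‖α‖ * L * ε₀) = 1 / (‖α‖ * L * ε₀) := by
        field_simp; norm_num
      linarith
    · rw [← hC00]; exact hC0 0 (by omega)
    · rw [← hC00, hρ, div_lt_iff₀ hn1]
      linarith
    · refine esc_of_crude hα hr0 13 hrw (fun j => ?_)
      have h3 := hcos j
      rw [cf_norm]
      have h4 : (13 + 1 + j : ℕ) = 14 + j := by ring
      rw [h4]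
      calc (4 : ℝ) ≤ 21 / Real.pi := by
            rw [le_div_iff₀ hpi]; linarith
        _ = ‖α‖ * (2 * (L : ℝ) ^ 14 * ε₀ / 2 ^ j) * (2 ^ j * r) := by
            rw [hr]; field_simp
        _ ≤ _ := by gcongr

/-! ### The theorem -/

lemma cf_add_int (α : ℂ) (u : ℝ) (k : ℤ) : cf α (u + k) = cf α u := by
  unfold cf
  have : 2 * Real.pi * (u + k) = 2 * Real.pi * u + k * (2 * Real.pi) := by ring
  rw [this, Real.cos_add_int_mul_two_pi]

lemma Esc.add_int {L : ℕ} {α : ℂ} {u : ℝ} {m : ℂ} {ρ : ℝ} (k : ℤ) (h : Esc L α (u + k) m ρ) :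
    Esc L α u m ρ := by
  have e : ∀ (w : ℂ) (n : ℕ), Phi L α w n (((L : ℝ) * (u + k) : ℝ) : ℂ) =
      Phi L α w n (((L : ℝ) * u : ℝ) : ℂ) := by
    intro w n
    have : (((L : ℝ) * (u + k) : ℝ) : ℂ) = (((L : ℝ) * u : ℝ) : ℂ) + ((L * k : ℤ) : ℂ) := by
      push_cast; ring
    rw [this, Phi_add_int]
  refine ⟨h.pos, ?_, ?_, ?_⟩
  · have := h.ne; rwa [cf_add_int] at this
  · have := h.far; rwa [cf_add_int] at this
  · have := h.esc; simpa only [e] using this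

/-- **Disconnected random Julia sets.** For every integer `L > 1` and every `α ∈ ℂ` with
`0 < |α| < 1` there is a measurable set `Λ ⊆ [0, 1)` of positive Lebesgue measure such that the
random Julia set `J_u` of the complexified Kan skew product is disconnected for every `u ∈ Λ`. -/
theorem result : ∀ (L : ℕ) (α : ℂ), 1 < L → 0 < ‖α‖ → ‖α‖ < 1 →
    ∃ Λ : Set ℝ, MeasurableSet Λ ∧ Λ ⊆ Set.Ico 0 1 ∧ 0 < volume Λ ∧
      ∀ u ∈ Λ, ¬ IsPreconnected (julia L α u) := by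
  intro L α hL hα0 hα
  have hα0' : α ≠ 0 := norm_pos_iff.1 hα0
  have hdata : Data L α := by
    rcases (show L % 2 = 0 ∨ L % 2 = 1 by omega) with h | h
    · exact even_case hL h hα0' hα
    · exact odd_case (by omega) h hα0' hα
  obtain ⟨ε₀, A, R₁, k₀, hε₀, hε₀1, hA, hR₁, hsmall, hdet, hgood⟩ := hdata
  have hpos := good_set hL hA hε₀ hsmall hdet
  set Λ₀ := {u : ℝ | u ∈ Set.Ioo (1 / 4 + ε₀ / 2) (1 / 4 + ε₀) ∧ ∀ j : ℕ, A * ε₀ / 2 ^ j ≤
      |Real.cos (2 * Real.pi * ((L : ℝ) ^ (k₀ + j) * u))|} with hΛ₀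
  have hΛm : MeasurableSet Λ₀ := by
    have : Λ₀ = Set.Ioo (1 / 4 + ε₀ / 2) (1 / 4 + ε₀) ∩ ⋂ j : ℕ, {u : ℝ | A * ε₀ / 2 ^ j ≤
      |Real.cos (2 * Real.pi * ((L : ℝ) ^ (k₀ + j) * u))|} := by
      ext u
      simp only [hΛ₀, Set.mem_inter_iff, Set.mem_iInter, Set.mem_ofPred_eq]
    rw [this]
    refine measurableSet_Ioo.inter (MeasurableSet.iInter fun j => ?_)
    apply IsClosed.measurableSet
    apply isClosed_le continuous_const
    fun_prop
  have hsub : Λ₀ ⊆ Set.Ioo 0 1 := by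
    intro u hu
    exact ⟨by linarith [hu.1.1], by linarith [hu.1.2]⟩
  have hrec := recur hL hΛm (hsub.trans Set.Ioo_subset_Ioc_self)
  obtain ⟨N, hN1, hN2, hN3⟩ := exists_measurable_superset_of_null (ae_iff.1 hrec)
  refine ⟨Λ₀ \ N, hΛm.diff hN2, ?_, ?_, ?_⟩
  · intro u hu
    exact ⟨(hsub hu.1).1.le, (hsub hu.1).2⟩
  · rw [measure_sdiff_null hN3]
    exact pos_iff_ne_zero.2 hpos
  · rintro u ⟨hu1, hu2⟩
    have hfreq : ∃ᶠ n : ℕ in atTop, ∃ k : ℤ, (L : ℝ) ^ n * u + k ∈ Λ₀ := by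
      by_contra hcon
      exact hu2 (hN1 fun h => hcon (h hu1))
    refine disconnected_of_esc hR₁ (hgood u hu1.1 hu1.2) (hfreq.mono ?_)
    rintro n ⟨k, hk⟩
    obtain ⟨m, ρ, h1, h2⟩ := hgood _ hk.1 hk.2
    exact ⟨m, ρ, h1, h2.add_int k⟩

end Pool.Agent.Results.MP_aeea9f_an.DisconnectedJulia
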